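import Pool.Agent.Helper69.UV.Defs

/-!
# UV R1, R1b, R2: support and size of the resonator
-/

set_option autoImplicit false
open MeasureTheory Set Filter Topology
open Pool.Agent.Helper57.Zeta Pool.Agent.Helper57.LH Pool.Agent.Helper57.ED Pool.Agent.Helper54.LG
open Pool.Agent.Helper69.UV

namespace Pool.Agent.Helper60.UV

variable {δ : ℝ}

lemma rr_ne {T c v : ℝ} {n : ℕ} (h : rr δ T c v n ≠ 0) :
    Squarefree n ∧ n.primeFactors ⊆ PR δ T c ∧ (n : ℝ) ≤ T ^ (1 / 2 - δ) := by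
  unfold rr at h
  by_contra hcon
  exact h (if_neg hcon)

/-- R1 -/
theorem rr_supp {T c v : ℝ} {n : ℕ} (h : rr δ T c v n ≠ 0) : 1 ≤ n ∧ n ≤ NR δ T ∧ Squarefree n := by
  obtain ⟨h1, _, h3⟩ := rr_ne h
  exact ⟨Nat.one_le_iff_ne_zero.mpr h1.ne_zero, Nat.le_floor h3, h1⟩

/-- R1b -/
theorem rp_le (T c v : ℝ) (p : ℕ) : |sn T c p| ≤ 1 ∧ |rp T c v p| ≤ |v| := by
  have h : |sn T c p| ≤ 1 := by
    unfold sn
    rw [abs_div]
    apply div_le_one_of_le₀ _ (abs_nonneg _)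
    exact Real.abs_sin_le_abs
  refine ⟨h, ?_⟩
  unfold rp
  rw [abs_mul]
  exact mul_le_of_le_one_right (abs_nonneg _) h

/-- number of primes. -/
lemma card_le (hδ : 0 < δ) {T c v : ℝ} (hT : 1 < T) (hc : 0 < c) {n : ℕ} (h : rr δ T c v n ≠ 0) :
    (n.primeFactors.card : ℝ) ≤ c / (2 * δ) := by
  obtain ⟨h1, h2, h3⟩ := rr_ne h
  have hT0 : 0 < T := by linarith
  have e : (n : ℝ) = ∏ p ∈ n.primeFactors, (p : ℝ) := by
    conv_lhs => rw [← Nat.prod_primeFactors_of_squarefree h1]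
    push_cast
    rfl
  have hb : ∀ p ∈ n.primeFactors, T ^ (δ / c) ≤ (p : ℝ) := by
    intro p hp
    have h4 := h2 hp
    unfold PR at h4
    exact (Finset.mem_filter.mp h4).2.2.le
  have h5 : (T ^ (δ / c)) ^ n.primeFactors.card ≤ T ^ (1 / 2 - δ) := by
    refine le_trans ?_ h3
    rw [e, ← Finset.prod_const]
    exact Finset.prod_le_prod (fun p _ => by positivity) hb
  rw [← Real.rpow_natCast, ← Real.rpow_mul hT0.le, Real.rpow_le_rpow_left_iff hT] at h5
  rw [le_div_iff₀ (by positivity)]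
  have h6 : δ / c * n.primeFactors.card * c = n.primeFactors.card * δ := by field_simp
  have h7 : δ / c * n.primeFactors.card * c ≤ (1 / 2 - δ) * c := by gcongr
  rw [h6] at h7
  nlinarith

lemma one_le_NR (hδ1 : δ ≤ 1 / 32) {T : ℝ} (hT : 1 ≤ T) : 1 ≤ NR δ T := by
  unfold NR
  rw [Nat.one_le_floor_iff]
  exact Real.one_le_rpow hT (by linarith)

lemma NR_le {T : ℝ} (hT : 0 ≤ T) : (NR δ T : ℝ) ≤ T ^ (1 / 2 - δ) := Nat.floor_le (by positivity)

lemma one_le_VV (hδ1 : δ ≤ 1 / 32) {T : ℝ} (hT : 1 ≤ T) (c v : ℝ) : 1 ≤ VV δ T c v := by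
  unfold VV
  have h1 : rr δ T c v 1 = 1 := by
    unfold rr
    rw [if_pos]
    · simp
    · refine ⟨squarefree_one, by simp, ?_⟩
      rw [Nat.cast_one]
      exact Real.one_le_rpow hT (by linarith)
  calc (1:ℝ) = rr δ T c v 1 ^ 2 / ((1 : ℕ) : ℝ) := by rw [h1]; simp
    _ ≤ _ := Finset.single_le_sum (f := fun n : ℕ => rr δ T c v n ^ 2 / (n : ℝ)) (fun n _ => by positivity)
      (Finset.mem_Icc.mpr ⟨le_refl 1, one_le_NR hδ1 hT⟩)

/-- the range of the parameters. -/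
lemma adm_facts (hδ : 0 < δ) (hδ1 : δ ≤ 1 / 32) {T c c0 : ℝ} (hT : Real.exp (Real.exp 1) ≤ T) (hc0 : 1 ≤ c0) (hc : Adm δ c0 T c) :
    1 < T ∧ 1 ≤ c ∧ c ≤ Real.log T ∧ 1 ≤ Real.log T ∧ 1 ≤ Real.log (Real.log T) := by
  have hTe : 0 < T := (Real.exp_pos _).trans_le hT
  have hL : Real.exp 1 ≤ Real.log T := (Real.le_log_iff_exp_le hTe).mpr hT
  have hL0 : 0 < Real.log T := (Real.exp_pos _).trans_le hL
  have hLL : 1 ≤ Real.log (Real.log T) := (Real.le_log_iff_exp_le hL0).mpr hL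
  have hL1 : 1 ≤ Real.log T := by
    have := Real.add_one_le_exp (1:ℝ)
    linarith
  have hT1 : 1 < T := by
    have := Real.add_one_le_exp (Real.exp 1)
    have := Real.exp_pos 1
    linarith
  refine ⟨hT1, hc0.trans hc.1, ?_, hL1, hLL⟩
  have h1 := hc.2
  have h2 : 1 ≤ c := hc0.trans hc.1
  have h3 : c ≤ c * Real.log (Real.log T) := le_mul_of_one_le_right (by linarith) hLL
  have h4 : δ ^ 2 ≤ 1 := by nlinarith
  have h5 : δ ^ 2 * Real.log T ≤ 1 * Real.log T := by gcongr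
  linarith

/-- R2 (at most `c/(2δ)` prime factors, each coefficient at most `√c`) -/
theorem rr_bd (hδ : 0 < δ) (hδ1 : δ ≤ 1 / 32) : ∃ c0 T0 : ℝ, ∀ T, T0 ≤ T → ∀ c, Adm δ c0 T c → ∀ v : ℝ,
    v ^ 2 = (1 - 4 * δ) * c → ∀ n, |rr δ T c v n| ≤ T ^ (δ / 64) ∧ 1 ≤ VV δ T c v := by
  refine ⟨1, Real.exp (Real.exp 1), fun T hT c hc v hv n => ?_⟩
  obtain ⟨hT1, hc1, hcL, hL1, hLL⟩ := adm_facts hδ hδ1 hT le_rfl hc
  have hT0 : 0 < T := by linarith
  have hc0 : 0 < c := by linarith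
  refine ⟨?_, one_le_VV hδ1 hT1.le c v⟩
  have hone : 1 ≤ T ^ (δ / 64) := Real.one_le_rpow hT1.le (by positivity)
  by_cases h0 : rr δ T c v n = 0
  · rw [h0, abs_zero]
    linarith
  have hcard := card_le hδ hT1 hc0 h0
  obtain ⟨h1, h2, h3⟩ := rr_ne h0
  unfold rr
  rw [if_pos ⟨h1, h2, h3⟩, Finset.abs_prod]
  have h4 : ∏ p ∈ n.primeFactors, |rp T c v p| ≤ |v| ^ n.primeFactors.card := by
    rw [← Finset.prod_const]
    exact Finset.prod_le_prod (fun _ _ => abs_nonneg _) (fun p _ => (rp_le T c v p).2)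
  refine h4.trans ?_
  rcases le_total |v| 1 with hv1 | hv1
  · exact (pow_le_one₀ (abs_nonneg _) hv1).trans hone
  · have h6 : |v| ^ 2 ≤ Real.log T := by
      rw [sq_abs, hv]
      nlinarith
    have hv0 : 0 < |v| := by linarith
    have h7 : 2 * Real.log |v| ≤ Real.log (Real.log T) := by
      have := Real.log_le_log (by positivity) h6
      rw [Real.log_pow] at this
      exact_mod_cast this
    have h8 : 0 ≤ Real.log |v| := Real.log_nonneg hv1
    rw [Real.rpow_def_of_pos hT0, ← Real.exp_log (pow_pos hv0 n.primeFactors.card), Real.log_pow]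
    apply Real.exp_le_exp.mpr
    calc (n.primeFactors.card : ℝ) * Real.log |v| ≤ c / (2 * δ) * Real.log |v| := by gcongr
      _ ≤ c / (2 * δ) * (Real.log (Real.log T) / 2) := by gcongr; linarith
      _ = 64 * (c * Real.log (Real.log T)) / (256 * δ) := by field_simp; ring
      _ ≤ δ ^ 2 * Real.log T / (256 * δ) := div_le_div_of_nonneg_right hc.2 (by positivity)
      _ = Real.log T * (δ / 256) := by field_simp
      _ ≤ Real.log T * (δ / 64) := by gcongr; norm_num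

end Pool.Agent.Helper60.UV
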