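import Pool.Agent.Helper60.UV.Gen
import Pool.Agent.Helper60.UV.R12

/-!
# UV R7, R8, R9: moments of the resonator
-/

set_option autoImplicit false
open MeasureTheory Set Filter Topology
open Pool.Agent.Helper57.Zeta Pool.Agent.Helper57.LH Pool.Agent.Helper57.ED Pool.Agent.Helper54.LG
open Pool.Agent.Helper69.UV

namespace Pool.Agent.Helper60.UV

variable {δ : ℝ}

lemma WW_pos {T : ℝ} (hT : 0 < T) : 0 < WW δ T := by unfold WW; positivity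

lemma Ar_rr (hδ : 0 < δ) {T c v : ℝ} (hT : 1 < T) (h : ∀ n, |rr δ T c v n| ≤ T ^ (δ / 64)) :
    Ar (rr δ T c v) (NR δ T) ≤ T := by
  have hT0 : 0 < T := by linarith
  calc Ar (rr δ T c v) (NR δ T) ≤ NR δ T * T ^ (δ / 64) := Ar_le h
    _ ≤ T ^ (1 / 2 - δ) * T ^ (δ / 64) := by gcongr; exact NR_le hT0.le
    _ = T ^ (1 / 2 - δ + δ / 64) := by rw [← Real.rpow_add hT0]
    _ ≤ T ^ (1 : ℝ) := Real.rpow_le_rpow_of_exponent_le hT.le (by linarith)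
    _ = T := Real.rpow_one T

/-- the error term for the lengths used here. -/
lemma exp_WW (hδ : 0 < δ) {T : ℝ} (hT : 1 < T) {M : ℕ} (hM1 : 1 ≤ M) (hM : (M : ℝ) ≤ T ^ (1 - 2 * δ)) :
    Real.exp (-(WW δ T / M)) ≤ Real.exp (-(T ^ δ)) := by
  have hT0 : 0 < T := by linarith
  have hMR : (0:ℝ) < M := by exact_mod_cast hM1
  apply Real.exp_le_exp.mpr
  apply neg_le_neg
  rw [le_div_iff₀ hMR]
  calc T ^ δ * M ≤ T ^ δ * T ^ (1 - 2 * δ) := by gcongr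
    _ = T ^ (1 - δ) := by rw [← Real.rpow_add hT0]; congr 1; ring
    _ ≤ WW δ T := by
        unfold WW
        exact Real.rpow_le_rpow_of_exponent_le hT.le (by linarith)

lemma NR_le2 (hδ : 0 < δ) (hδ1 : δ ≤ 1 / 32) {T : ℝ} (hT : 1 < T) : (NR δ T : ℝ) ≤ T ^ (1 - 2 * δ) :=
  (NR_le (by linarith)).trans (Real.rpow_le_rpow_of_exponent_le hT.le (by linarith))

/-- R8: mass -/
theorem wmass (hδ : 0 < δ) (hδ1 : δ ≤ 1 / 32) : ∃ c0 T0 : ℝ, ∀ T, T0 ≤ T → ∀ c, Adm δ c0 T c → ∀ v : ℝ,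
    v ^ 2 = (1 - 4 * δ) * c → ∀ τ : ℝ,
    Integrable (wt δ T c v τ) ∧ |(∫ t, wt δ T c v τ t) - VV δ T c v| ≤ VV δ T c v / T := by
  obtain ⟨c0, T0, hR⟩ := rr_bd hδ hδ1
  obtain ⟨T1, hT1, hg⟩ := growth_pow hδ 2
  refine ⟨c0, max T0 (max T1 2), fun T hT c hc v hv τ => ?_⟩
  have hTT : 1 < T := by
    have := (le_max_right _ _).trans ((le_max_right _ _).trans hT)
    linarith
  have hT0' : 0 < T := by linarith
  have hr := hR T ((le_max_left _ _).trans hT) c hc v hv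
  have hV := (hr 0).2
  have hm := mass (rr δ T c v) (NR δ T) (WW_pos (δ := δ) hT0') τ
  refine ⟨hm.1, ?_⟩
  have h2 : |(∫ t, wt δ T c v τ t) - VV δ T c v| ≤
      Ar (rr δ T c v) (NR δ T) ^ 2 * Real.exp (-(WW δ T / NR δ T)) := hm.2
  have h3 := Ar_rr hδ hTT (fun n => (hr n).1)
  have h4 := Ar_nonneg (rr δ T c v) (NR δ T)
  have h6 := exp_WW hδ hTT (one_le_NR hδ1 hTT.le) (NR_le2 hδ hδ1 hTT)
  have h7 := hg T ((le_max_left _ _).trans ((le_max_right _ _).trans hT))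
  calc |(∫ t, wt δ T c v τ t) - VV δ T c v| ≤
      Ar (rr δ T c v) (NR δ T) ^ 2 * Real.exp (-(WW δ T / NR δ T)) := h2
    _ ≤ T ^ 2 * Real.exp (-(T ^ δ)) := by gcongr
    _ ≤ 1 / T := h7
    _ ≤ VV δ T c v / T := by gcongr

/-- `r(nm) = 0` if `n` is a prime power, not a prime of the resonator. -/
lemma rr_pp {T c v : ℝ} {n m : ℕ} (hn : IsPrimePow n) (hnP : n ∉ PR δ T c) : rr δ T c v (n * m) = 0 := by
  by_contra h0
  obtain ⟨h1, h2, _⟩ := rr_ne h0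
  have h3 : Squarefree n := h1.squarefree_of_dvd (Dvd.intro _ rfl)
  obtain ⟨p, k, hp, hk, rfl⟩ := hn
  have hp' : p.Prime := hp.nat_prime
  have hk1 : k = 1 := by
    by_contra hne
    have h4 : p * p ∣ p ^ k := by
      rw [← sq]
      exact pow_dvd_pow p (by omega)
    have := h3 p h4
    exact hp'.one_lt.ne' (Nat.isUnit_iff.mp this)
  rw [hk1, pow_one] at hnP h1 h2
  exact hnP (h2 (Nat.mem_primeFactors.mpr ⟨hp', Dvd.intro _ rfl, h1.ne_zero⟩))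

/-- R9: mean of a cosine -/
theorem ecos (hδ : 0 < δ) (hδ1 : δ ≤ 1 / 32) : ∃ c0 T0 : ℝ, ∀ T, T0 ≤ T → ∀ c, Adm δ c0 T c → ∀ v : ℝ,
    v ^ 2 = (1 - 4 * δ) * c → ∀ τ u : ℝ, ∀ n : ℕ, IsPrimePow n → (n : ℝ) ≤ Real.exp (XX δ T c) →
    |(∫ t, wt δ T c v τ t * Real.cos ((t + u) * Real.log n)) -
      (if n ∈ PR δ T c then Pool.Agent.Helper69.UV.WP δ T c v n / √n * Real.cos (u * Real.log n) else 0)| ≤ 1 / T := by
  obtain ⟨c0, T0, hR⟩ := rr_bd hδ hδ1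
  obtain ⟨T1, hT1, hg⟩ := growth_pow hδ 2
  refine ⟨max c0 (1 / (δ ^ 2 * (1 / 4))), max T0 (max T1 2), fun T hT c hc v hv τ u n hn hnX => ?_⟩
  have hTT : 1 < T := by
    have := (le_max_right _ _).trans ((le_max_right _ _).trans hT)
    linarith
  have hT0' : 0 < T := by linarith
  have hcc : 1 / (δ ^ 2 * (1 / 4)) ≤ c := (le_max_right _ _).trans hc.1
  have hc0 : 0 < c := lt_of_lt_of_le (by positivity) hcc
  have hr := hR T ((le_max_left _ _).trans hT) c ⟨(le_max_left _ _).trans hc.1, hc.2⟩ v hv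
  have hn1 : 1 ≤ n := hn.one_lt.le
  have hnR : (1:ℝ) ≤ n := by exact_mod_cast hn1
  have hnT : (n : ℝ) ≤ T ^ (1 / 4 : ℝ) := by
    refine hnX.trans ?_
    rw [Real.rpow_def_of_pos hT0']
    apply Real.exp_le_exp.mpr
    unfold XX
    have h1 : 0 < Real.log T := Real.log_pos hTT
    rw [div_le_iff₀ (by positivity)]
    rw [div_le_iff₀ (by positivity)] at hcc
    nlinarith
  have hM : ((NR δ T * n : ℕ) : ℝ) ≤ T ^ (1 - 2 * δ) := by
    rw [Nat.cast_mul]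
    calc (NR δ T : ℝ) * n ≤ T ^ (1 / 2 - δ) * T ^ (1 / 4 : ℝ) :=
          mul_le_mul (NR_le hT0'.le) hnT (by positivity) (by positivity)
      _ = T ^ (1 / 2 - δ + 1 / 4) := by rw [← Real.rpow_add hT0']
      _ ≤ T ^ (1 - 2 * δ) := Real.rpow_le_rpow_of_exponent_le hTT.le (by linarith)
  have hk := cosm (rr δ T c v) (NR δ T) (fun m hm => ⟨(rr_supp hm).1, (rr_supp hm).2.1⟩) (WW_pos (δ := δ) hT0') τ u hn1
  have h3 := Ar_rr hδ hTT (fun n => (hr n).1)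
  have h4 := Ar_nonneg (rr δ T c v) (NR δ T)
  have h6 := exp_WW hδ hTT (Nat.mul_pos (one_le_NR hδ1 hTT.le) hn1) hM
  have h7 := hg T ((le_max_left _ _).trans ((le_max_right _ _).trans hT))
  have h8 : Ar (rr δ T c v) (NR δ T) ^ 2 * Real.exp (-(WW δ T / ((NR δ T * n : ℕ) : ℝ))) ≤ 1 / T := by
    calc _ ≤ T ^ 2 * Real.exp (-(T ^ δ)) := by gcongr
      _ ≤ 1 / T := h7
  have e1 : (∑ m ∈ Finset.Icc 1 (NR δ T), rr δ T c v m * rr δ T c v (n * m) / m) / √n * Real.cos (u * Real.log n) =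
      (if n ∈ PR δ T c then Pool.Agent.Helper69.UV.WP δ T c v n / √n * Real.cos (u * Real.log n) else 0) := by
    split_ifs with hP
    · rfl
    · rw [Finset.sum_eq_zero fun m _ => by rw [rr_pp hn hP]; simp]
      simp
  rw [e1] at hk
  exact hk.trans h8

/-- R7: fourth moment, any centre -/
theorem m4 (hδ : 0 < δ) (hδ1 : δ ≤ 1 / 32) : ∃ A c0 T0 : ℝ, ∀ T, T0 ≤ T → ∀ c, Adm δ c0 T c → ∀ v : ℝ,
    v ^ 2 = (1 - 4 * δ) * c → ∀ τ : ℝ,
    Integrable (fun t => PW (WW δ T) (t - τ) * ‖RR δ T c v t‖ ^ 4) ∧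
    ∫ t, PW (WW δ T) (t - τ) * ‖RR δ T c v t‖ ^ 4 ≤ Real.exp (A * c) * VV δ T c v ^ 2 := by
  obtain ⟨c0, T0, hR⟩ := rr_bd hδ hδ1
  obtain ⟨T1, hT1, hg⟩ := growth_pow hδ 4
  refine ⟨1 / δ + 1, max c0 1, max T0 (max T1 2), fun T hT c hc v hv τ => ?_⟩
  have hTT : 1 < T := by
    have := (le_max_right _ _).trans ((le_max_right _ _).trans hT)
    linarith
  have hT0' : 0 < T := by linarith
  have hc1 : 1 ≤ c := (le_max_right _ _).trans hc.1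
  have hc0 : 0 < c := by linarith
  have hr := hR T ((le_max_left _ _).trans hT) c ⟨(le_max_left _ _).trans hc.1, hc.2⟩ v hv
  have hV := (hr 0).2
  have hK : ∀ n, rr δ T c v n ≠ 0 → Squarefree n ∧ n.primeFactors.card ≤ ⌊c / (2 * δ)⌋₊ := fun n hn =>
    ⟨(rr_ne hn).1, Nat.le_floor (card_le hδ hTT hc0 hn)⟩
  have hf := fourth (rr δ T c v) (NR δ T) (4 ^ ⌊c / (2 * δ)⌋₊)
    (fun i h1 h2 => mult_gen hK _ (fun n hn => (Finset.mem_filter.mp hn).2) i h1 h2) (WW_pos (δ := δ) hT0') τ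
  refine ⟨hf.1, ?_⟩
  have h2 : ∫ t, PW (WW δ T) (t - τ) * ‖RR δ T c v t‖ ^ 4 ≤ ((4 ^ ⌊c / (2 * δ)⌋₊ : ℕ) : ℝ) * VV δ T c v ^ 2 +
      Ar (rr δ T c v) (NR δ T) ^ 4 * Real.exp (-(WW δ T / ((NR δ T * NR δ T : ℕ) : ℝ))) := hf.2
  have h3 := Ar_rr hδ hTT (fun n => (hr n).1)
  have h4 := Ar_nonneg (rr δ T c v) (NR δ T)
  have hM : ((NR δ T * NR δ T : ℕ) : ℝ) ≤ T ^ (1 - 2 * δ) := by
    rw [Nat.cast_mul]
    calc (NR δ T : ℝ) * NR δ T ≤ T ^ (1 / 2 - δ) * T ^ (1 / 2 - δ) :=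
          mul_le_mul (NR_le hT0'.le) (NR_le hT0'.le) (by positivity) (by positivity)
      _ = T ^ (1 - 2 * δ) := by rw [← Real.rpow_add hT0']; congr 1; ring
  have hN1 := one_le_NR hδ1 hTT.le
  have h6 := exp_WW hδ hTT (Nat.mul_pos hN1 hN1) hM
  have h7 := hg T ((le_max_left _ _).trans ((le_max_right _ _).trans hT))
  have h8 : Ar (rr δ T c v) (NR δ T) ^ 4 * Real.exp (-(WW δ T / ((NR δ T * NR δ T : ℕ) : ℝ))) ≤ VV δ T c v ^ 2 := by
    calc _ ≤ T ^ 4 * Real.exp (-(T ^ δ)) := by gcongr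
      _ ≤ 1 / T := h7
      _ ≤ 1 := (div_le_one hT0').mpr hTT.le
      _ ≤ VV δ T c v ^ 2 := one_le_pow₀ hV
  have h9 : ((4 ^ ⌊c / (2 * δ)⌋₊ : ℕ) : ℝ) ≤ Real.exp (c / δ) := by
    rw [Nat.cast_pow]
    have h10 : (4:ℝ) ≤ Real.exp 2 := by
      have := Real.add_one_le_exp (1:ℝ)
      have h11 : Real.exp 2 = Real.exp 1 * Real.exp 1 := by rw [← Real.exp_add]; norm_num
      rw [h11]
      nlinarith
    calc (((4:ℕ) : ℝ)) ^ ⌊c / (2 * δ)⌋₊ ≤ (Real.exp 2) ^ ⌊c / (2 * δ)⌋₊ := by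
          apply pow_le_pow_left₀ (by positivity)
          exact_mod_cast h10
      _ = Real.exp (⌊c / (2 * δ)⌋₊ * 2) := by rw [← Real.exp_nat_mul]
      _ ≤ Real.exp (c / δ) := by
          apply Real.exp_le_exp.mpr
          have : (⌊c / (2 * δ)⌋₊ : ℝ) ≤ c / (2 * δ) := Nat.floor_le (by positivity)
          calc (⌊c / (2 * δ)⌋₊ : ℝ) * 2 ≤ c / (2 * δ) * 2 := by gcongr
            _ = c / δ := by field_simp
  have h10 : Real.exp (c / δ) + 1 ≤ Real.exp ((1 / δ + 1) * c) := by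
    have h11 : Real.exp ((1 / δ + 1) * c) = Real.exp (c / δ) * Real.exp c := by
      rw [← Real.exp_add]
      congr 1
      ring
    have h12 := Real.add_one_le_exp c
    have h13 := Real.one_le_exp (show 0 ≤ c / δ by positivity)
    rw [h11]
    nlinarith
  have hVsq : 0 ≤ VV δ T c v ^ 2 := by positivity
  have h11 : ((4 ^ ⌊c / (2 * δ)⌋₊ : ℕ) : ℝ) * VV δ T c v ^ 2 ≤ Real.exp (c / δ) * VV δ T c v ^ 2 := by gcongr
  have h12 : (Real.exp (c / δ) + 1) * VV δ T c v ^ 2 ≤ Real.exp ((1 / δ + 1) * c) * VV δ T c v ^ 2 := by gcongr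
  linarith

end Pool.Agent.Helper60.UV
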