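import Pool.Agent.Helper60.UG.R789

/-!
# UV-GEN: moments of a Dirichlet polynomial against the Poisson kernel
-/

set_option autoImplicit false
open MeasureTheory Set Filter Topology
open Pool.Agent.Helper57.Zeta Pool.Agent.Helper57.LH Pool.Agent.Helper57.ED Pool.Agent.Helper54.LG

namespace Pool.Agent.Helper60.UV
open Pool.Agent.Helper60.UG (mean_cos norm_sq_sum mult_bd growth)

/-- A Dirichlet polynomial on the critical line. -/
noncomputable def Rr (r : ℕ → ℝ) (M : ℕ) (t : ℝ) : ℂ :=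
  ∑ n ∈ Finset.Icc 1 M, (r n : ℂ) * (n : ℂ) ^ (-((1 / 2 : ℂ) + (t : ℂ) * Complex.I))

/-- Its diagonal mean square. -/
noncomputable def Vr (r : ℕ → ℝ) (M : ℕ) : ℝ := ∑ n ∈ Finset.Icc 1 M, r n ^ 2 / n

/-- The sum of its coefficients. -/
noncomputable def Ar (r : ℕ → ℝ) (M : ℕ) : ℝ := ∑ n ∈ Finset.Icc 1 M, |r n / √n|

lemma Ar_nonneg (r : ℕ → ℝ) (M : ℕ) : 0 ≤ Ar r M := Finset.sum_nonneg fun _ _ => abs_nonneg _

lemma Ar_le {r : ℕ → ℝ} {M : ℕ} {B : ℝ} (h : ∀ n, |r n| ≤ B) : Ar r M ≤ M * B := by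
  unfold Ar
  calc ∑ n ∈ Finset.Icc 1 M, |r n / √n| ≤ ∑ n ∈ Finset.Icc 1 M, B := by
        refine Finset.sum_le_sum fun n hn => ?_
        have hn1 : (1:ℝ) ≤ n := by exact_mod_cast (Finset.mem_Icc.mp hn).1
        rw [abs_div, abs_of_nonneg (Real.sqrt_nonneg _)]
        refine (div_le_self (abs_nonneg _) ?_).trans (h n)
        exact Real.one_le_sqrt.mpr hn1
    _ = M * B := by rw [Finset.sum_const, Nat.card_Icc, nsmul_eq_mul]; simp

lemma gterm_eq (x t : ℝ) {n : ℕ} (hn : 1 ≤ n) :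
    (x : ℂ) * (n : ℂ) ^ (-((1 / 2 : ℂ) + (t : ℂ) * Complex.I)) =
      ((x / √n : ℝ) : ℂ) * Complex.exp (((-(t * Real.log n) : ℝ) : ℂ) * Complex.I) := by
  have hn0 : (n : ℂ) ≠ 0 := by exact_mod_cast (by omega : n ≠ 0)
  have hnR : (0:ℝ) < n := by exact_mod_cast hn
  rw [Complex.cpow_def_of_ne_zero hn0, ← Complex.natCast_log]
  have e1 : (Real.log n : ℂ) * -((1 / 2 : ℂ) + (t : ℂ) * Complex.I) =
      ((-(Real.log n / 2) : ℝ) : ℂ) + ((-(t * Real.log n) : ℝ) : ℂ) * Complex.I := by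
    push_cast
    ring
  rw [e1, Complex.exp_add, ← Complex.ofReal_exp]
  have e2 : Real.exp (-(Real.log n / 2)) = 1 / √n := by
    rw [Real.exp_neg, ← Real.log_sqrt hnR.le, Real.exp_log (Real.sqrt_pos.mpr hnR), one_div]
  rw [e2]
  push_cast
  ring

theorem Rr_eq (r : ℕ → ℝ) (M : ℕ) (t : ℝ) : Rr r M t = ∑ n ∈ Finset.Icc 1 M,
    ((r n / √n : ℝ) : ℂ) * Complex.exp (((-(t * Real.log n) : ℝ) : ℂ) * Complex.I) := by
  unfold Rr
  exact Finset.sum_congr rfl fun n hn => gterm_eq (r n) t (Finset.mem_Icc.mp hn).1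

theorem Rr_sq (r : ℕ → ℝ) (M : ℕ) (t : ℝ) : ‖Rr r M t‖ ^ 2 = ∑ q ∈ Finset.Icc 1 M ×ˢ Finset.Icc 1 M,
    r q.1 / √q.1 * (r q.2 / √q.2) * Real.cos ((Real.log q.1 - Real.log q.2) * t + 0) := by
  rw [Rr_eq, norm_sq_sum]
  refine Finset.sum_congr rfl fun q _ => ?_
  rw [← Real.cos_neg]
  congr 2
  ring

theorem Rr_cont (r : ℕ → ℝ) (M : ℕ) : Continuous (Rr r M) := by
  have : Rr r M = fun t => ∑ n ∈ Finset.Icc 1 M,
    ((r n / √n : ℝ) : ℂ) * Complex.exp (((-(t * Real.log n) : ℝ) : ℂ) * Complex.I) := funext fun t => Rr_eq r M t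
  rw [this]
  fun_prop

/-- mass. -/
theorem mass (r : ℕ → ℝ) (M : ℕ) {W : ℝ} (hW : 0 < W) (τ : ℝ) :
    Integrable (fun t => PW W (t - τ) * ‖Rr r M t‖ ^ 2) ∧
    |(∫ t, PW W (t - τ) * ‖Rr r M t‖ ^ 2) - Vr r M| ≤ Ar r M ^ 2 * Real.exp (-(W / M)) := by
  have hm := mean_cos (Finset.Icc 1 M ×ˢ Finset.Icc 1 M)
    (fun q => r q.1 / √q.1 * (r q.2 / √q.2)) (fun _ => 0) (fun q => q.1) (fun q => q.2) (N := M)
    (fun q hq => Finset.mem_Icc.mp (Finset.mem_product.mp hq).1) (fun q hq => Finset.mem_Icc.mp (Finset.mem_product.mp hq).2)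
    hW τ
  have e : (fun t => PW W (t - τ) * ∑ q ∈ Finset.Icc 1 M ×ˢ Finset.Icc 1 M,
      r q.1 / √q.1 * (r q.2 / √q.2) * Real.cos ((Real.log q.1 - Real.log q.2) * t + 0)) =
      fun t => PW W (t - τ) * ‖Rr r M t‖ ^ 2 := by
    funext t
    rw [← Rr_sq]
  rw [e] at hm
  refine ⟨hm.1, ?_⟩
  have hd : ∑ q ∈ Finset.Icc 1 M ×ˢ Finset.Icc 1 M, (if q.1 = q.2 then
      r q.1 / √q.1 * (r q.2 / √q.2) * Real.cos 0 else 0) = Vr r M := by
    rw [Finset.sum_product]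
    unfold Vr
    refine Finset.sum_congr rfl fun n hn => ?_
    have hn1 : (0:ℝ) < n := by exact_mod_cast (Finset.mem_Icc.mp hn).1
    simp only
    rw [Finset.sum_ite_eq, if_pos hn, Real.cos_zero, mul_one, div_mul_div_comm, Real.mul_self_sqrt hn1.le, sq]
  have hs : ∑ q ∈ Finset.Icc 1 M ×ˢ Finset.Icc 1 M, |r q.1 / √q.1 * (r q.2 / √q.2)| = Ar r M ^ 2 := by
    unfold Ar
    rw [sq, Finset.sum_mul_sum, Finset.sum_product]
    exact Finset.sum_congr rfl fun n _ => Finset.sum_congr rfl fun m _ => abs_mul _ _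
  have h2 := hm.2
  rw [hd, hs] at h2
  exact h2

/-- mean of a cosine. -/
theorem cosm (r : ℕ → ℝ) (M : ℕ) (hr : ∀ n, r n ≠ 0 → 1 ≤ n ∧ n ≤ M) {W : ℝ} (hW : 0 < W) (τ u : ℝ) {n : ℕ}
    (hn1 : 1 ≤ n) :
    |(∫ t, PW W (t - τ) * ‖Rr r M t‖ ^ 2 * Real.cos ((t + u) * Real.log n)) -
      (∑ m ∈ Finset.Icc 1 M, r m * r (n * m) / m) / √n * Real.cos (u * Real.log n)| ≤
      Ar r M ^ 2 * Real.exp (-(W / ((M * n : ℕ) : ℝ))) := by
  have hnR : (1:ℝ) ≤ n := by exact_mod_cast hn1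
  set S := Finset.Icc 1 M ×ˢ Finset.Icc 1 M with hSdef
  set a : ℕ → ℝ := fun m => r m / √m with ha
  have hle : M ≤ M * n := Nat.le_mul_of_pos_right _ hn1
  have b1 : ∀ q ∈ S, 1 ≤ q.1 ∧ q.1 ≤ M * n := fun q hq => by
    have := Finset.mem_Icc.mp (Finset.mem_product.mp hq).1
    exact ⟨this.1, this.2.trans hle⟩
  have b2 : ∀ q ∈ S, 1 ≤ q.2 ∧ q.2 ≤ M * n := fun q hq => by
    have := Finset.mem_Icc.mp (Finset.mem_product.mp hq).2
    exact ⟨this.1, this.2.trans hle⟩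
  have b3 : ∀ q ∈ S, 1 ≤ q.1 * n ∧ q.1 * n ≤ M * n := fun q hq => by
    have := Finset.mem_Icc.mp (Finset.mem_product.mp hq).1
    exact ⟨Nat.mul_pos this.1 hn1, Nat.mul_le_mul_right _ this.2⟩
  have b4 : ∀ q ∈ S, 1 ≤ q.2 * n ∧ q.2 * n ≤ M * n := fun q hq => by
    have := Finset.mem_Icc.mp (Finset.mem_product.mp hq).2
    exact ⟨Nat.mul_pos this.1 hn1, Nat.mul_le_mul_right _ this.2⟩
  have m1 := mean_cos S (fun q => a q.1 * a q.2 / 2) (fun _ => u * Real.log n) (fun q => q.1 * n) (fun q => q.2)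
    b3 b2 hW τ
  have m2 := mean_cos S (fun q => a q.1 * a q.2 / 2) (fun _ => -(u * Real.log n)) (fun q => q.1) (fun q => q.2 * n)
    b1 b4 hW τ
  have e : (fun t => PW W (t - τ) * ‖Rr r M t‖ ^ 2 * Real.cos ((t + u) * Real.log n)) = fun t =>
      PW W (t - τ) * ∑ q ∈ S, a q.1 * a q.2 / 2 *
        Real.cos ((Real.log ((q.1 * n : ℕ) : ℝ) - Real.log q.2) * t + u * Real.log n) +
      PW W (t - τ) * ∑ q ∈ S, a q.1 * a q.2 / 2 *
        Real.cos ((Real.log q.1 - Real.log ((q.2 * n : ℕ) : ℝ)) * t + -(u * Real.log n)) := by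
    funext t
    rw [Rr_sq, ← mul_add, mul_assoc, ← Finset.sum_add_distrib, Finset.sum_mul]
    congr 1
    refine Finset.sum_congr rfl fun q hq => ?_
    have q1 : (0:ℝ) < q.1 := by exact_mod_cast (b1 q hq).1
    have q2 : (0:ℝ) < q.2 := by exact_mod_cast (b2 q hq).1
    rw [Nat.cast_mul, Nat.cast_mul, Real.log_mul q1.ne' (by positivity), Real.log_mul q2.ne' (by positivity)]
    simp only [ha]
    have c1 := Real.cos_add ((Real.log q.1 - Real.log q.2) * t) ((t + u) * Real.log n)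
    have c2 := Real.cos_sub ((Real.log q.1 - Real.log q.2) * t) ((t + u) * Real.log n)
    rw [show (Real.log q.1 + Real.log n - Real.log q.2) * t + u * Real.log n =
      (Real.log q.1 - Real.log q.2) * t + (t + u) * Real.log n by ring,
      show (Real.log q.1 - (Real.log q.2 + Real.log n)) * t + -(u * Real.log n) =
      (Real.log q.1 - Real.log q.2) * t - (t + u) * Real.log n by ring, c1, c2, add_zero]
    ring
  rw [e, integral_add m1.1 m2.1]
  have dt : ∀ m, 1 ≤ m → ∀ C : ℝ, (if m * n ∈ Finset.Icc 1 M then r m / √m * (r (m * n) / √((m * n : ℕ) : ℝ)) / 2 * C else 0) =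
      r m * r (n * m) / m / √n / 2 * C := by
    intro m hm C
    have hmR : (0:ℝ) < m := by exact_mod_cast hm
    have hnR : (0:ℝ) < n := by exact_mod_cast hn1
    rw [mul_comm n m]
    split_ifs with h
    · rw [Nat.cast_mul, Real.sqrt_mul hmR.le]
      have h1 : √(m:ℝ) * √(m:ℝ) = m := Real.mul_self_sqrt hmR.le
      have h2 : 0 < √(m:ℝ) := Real.sqrt_pos.mpr hmR
      have h3 : 0 < √(n:ℝ) := Real.sqrt_pos.mpr hnR
      have h4 : r m / √m * (r (m * n) / (√m * √n)) = r m * r (m * n) / (√m * √m) / √n := by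
        field_simp
      rw [h4, h1]
    · have : r (m * n) = 0 := by
        by_contra hne
        exact h (Finset.mem_Icc.mpr (hr _ hne))
      rw [this]
      simp
  have d1 : ∑ q ∈ S, (if q.1 * n = q.2 then a q.1 * a q.2 / 2 * Real.cos (u * Real.log n) else 0) =
      (∑ m ∈ Finset.Icc 1 M, r m * r (n * m) / m) / √n * Real.cos (u * Real.log n) / 2 := by
    have e1 : ∑ q ∈ S, (if q.1 * n = q.2 then a q.1 * a q.2 / 2 * Real.cos (u * Real.log n) else 0) =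
        ∑ m ∈ Finset.Icc 1 M, r m * r (n * m) / m / √n / 2 * Real.cos (u * Real.log n) := by
      rw [hSdef, Finset.sum_product]
      refine Finset.sum_congr rfl fun m hm => ?_
      simp only
      rw [Finset.sum_ite_eq]
      exact dt m (Finset.mem_Icc.mp hm).1 _
    rw [e1, Finset.sum_div, Finset.sum_mul, Finset.sum_div]
    exact Finset.sum_congr rfl fun m _ => by ring
  have d2 : ∑ q ∈ S, (if q.1 = q.2 * n then a q.1 * a q.2 / 2 * Real.cos (-(u * Real.log n)) else 0) =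
      (∑ m ∈ Finset.Icc 1 M, r m * r (n * m) / m) / √n * Real.cos (u * Real.log n) / 2 := by
    rw [← d1, hSdef, Finset.sum_product, Finset.sum_product_right]
    refine Finset.sum_congr rfl fun m _ => Finset.sum_congr rfl fun m' _ => ?_
    simp only [Real.cos_neg]
    by_cases h : m' * n = m
    · rw [if_pos h, if_pos h.symm]
      ring
    · rw [if_neg h, if_neg (fun h' => h h'.symm)]
  have hs : ∑ q ∈ S, |a q.1 * a q.2 / 2| = Ar r M ^ 2 / 2 := by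
    unfold Ar
    rw [sq, Finset.sum_mul_sum, hSdef, Finset.sum_product, Finset.sum_div]
    refine Finset.sum_congr rfl fun n _ => ?_
    rw [Finset.sum_div]
    exact Finset.sum_congr rfl fun m _ => by rw [abs_div, abs_mul, abs_of_pos (show (0:ℝ) < 2 by norm_num)]
  have k1 := m1.2
  have k2 := m2.2
  rw [d1, hs] at k1
  rw [d2, hs] at k2
  rw [abs_le] at k1 k2 ⊢
  constructor <;> linarith [k1.1, k1.2, k2.1, k2.2]

/-- fourth moment. -/
theorem fourth (r : ℕ → ℝ) (M D : ℕ)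
    (hD : ∀ i : ℕ × ℕ, r i.1 ≠ 0 → r i.2 ≠ 0 → ((((Finset.Icc 1 M).filter (fun n => r n ≠ 0)) ×ˢ
      ((Finset.Icc 1 M).filter (fun n => r n ≠ 0))).filter (fun j => i.1 * i.2 = j.1 * j.2)).card ≤ D)
    {W : ℝ} (hW : 0 < W) (τ : ℝ) :
    Integrable (fun t => PW W (t - τ) * ‖Rr r M t‖ ^ 4) ∧
    ∫ t, PW W (t - τ) * ‖Rr r M t‖ ^ 4 ≤ D * Vr r M ^ 2 + Ar r M ^ 4 * Real.exp (-(W / ((M * M : ℕ) : ℝ))) := by
  classical
  set S := (Finset.Icc 1 M).filter (fun n => r n ≠ 0) with hSdef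
  have hSr : ∀ n ∈ S, r n ≠ 0 := fun n hn => (Finset.mem_filter.mp hn).2
  have hS1 : ∀ n ∈ S, 1 ≤ n ∧ n ≤ M := fun n hn => Finset.mem_Icc.mp (Finset.mem_filter.mp hn).1
  set a : ℕ → ℝ := fun m => r m / √m with ha
  have hsub : ∀ f : ℕ → ℝ, (∀ n, a n = 0 → f n = 0) → ∑ n ∈ Finset.Icc 1 M, f n = ∑ n ∈ S, f n := by
    intro f hf
    rw [hSdef, Finset.sum_filter]
    refine Finset.sum_congr rfl fun n _ => ?_
    split_ifs with h
    · rfl
    · apply hf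
      simp only [ha]
      rw [not_not.mp h, zero_div]
  have hRS : ∀ t, Rr r M t = ∑ n ∈ S, (a n : ℂ) * Complex.exp (((-(t * Real.log n) : ℝ) : ℂ) * Complex.I) := by
    intro t
    rw [Rr_eq, hSdef, Finset.sum_filter]
    refine Finset.sum_congr rfl fun n _ => ?_
    split_ifs with h
    · rfl
    · rw [not_not.mp h, zero_div, Complex.ofReal_zero, zero_mul]
  set S2 := S ×ˢ S with hS2
  have hR4 : ∀ t, ‖Rr r M t‖ ^ 4 = ∑ q ∈ S2 ×ˢ S2, a q.1.1 * a q.1.2 * (a q.2.1 * a q.2.2) *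
      Real.cos ((Real.log ((q.1.1 * q.1.2 : ℕ) : ℝ) - Real.log ((q.2.1 * q.2.2 : ℕ) : ℝ)) * t + 0) := by
    intro t
    have h1 : Rr r M t ^ 2 = ∑ i ∈ S2, ((a i.1 * a i.2 : ℝ) : ℂ) *
        Complex.exp (((-(t * Real.log ((i.1 * i.2 : ℕ) : ℝ)) : ℝ) : ℂ) * Complex.I) := by
      rw [sq, hRS, Finset.sum_mul_sum, hS2, Finset.sum_product]
      refine Finset.sum_congr rfl fun m hm => Finset.sum_congr rfl fun n hn => ?_
      have q1 : (0:ℝ) < m := by exact_mod_cast (hS1 m hm).1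
      have q2 : (0:ℝ) < n := by exact_mod_cast (hS1 n hn).1
      simp only
      rw [Nat.cast_mul, Real.log_mul q1.ne' q2.ne']
      have h2 : Complex.exp (((-(t * (Real.log m + Real.log n)) : ℝ) : ℂ) * Complex.I) =
          Complex.exp (((-(t * Real.log m) : ℝ) : ℂ) * Complex.I) * Complex.exp (((-(t * Real.log n) : ℝ) : ℂ) * Complex.I) := by
        rw [← Complex.exp_add]
        congr 1
        push_cast
        ring
      rw [h2]
      push_cast
      ring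
    calc ‖Rr r M t‖ ^ 4 = ‖Rr r M t ^ 2‖ ^ 2 := by rw [norm_pow]; ring
      _ = _ := by
        rw [h1, norm_sq_sum]
        refine Finset.sum_congr rfl fun q _ => ?_
        rw [← Real.cos_neg]
        congr 2
        ring
  have bb : ∀ i ∈ S2, 1 ≤ i.1 * i.2 ∧ i.1 * i.2 ≤ M * M := fun i hi => by
    obtain ⟨h1, h2⟩ := Finset.mem_product.mp hi
    exact ⟨Nat.mul_pos (hS1 _ h1).1 (hS1 _ h2).1, Nat.mul_le_mul (hS1 _ h1).2 (hS1 _ h2).2⟩
  have hm := mean_cos (S2 ×ˢ S2) (fun q => a q.1.1 * a q.1.2 * (a q.2.1 * a q.2.2)) (fun _ => 0)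
    (fun q => q.1.1 * q.1.2) (fun q => q.2.1 * q.2.2) (N := M * M)
    (fun q hq => bb _ (Finset.mem_product.mp hq).1) (fun q hq => bb _ (Finset.mem_product.mp hq).2) hW τ
  have e : (fun t => PW W (t - τ) * ‖Rr r M t‖ ^ 4) = fun t => PW W (t - τ) *
      ∑ q ∈ S2 ×ˢ S2, a q.1.1 * a q.1.2 * (a q.2.1 * a q.2.2) *
      Real.cos ((Real.log ((q.1.1 * q.1.2 : ℕ) : ℝ) - Real.log ((q.2.1 * q.2.2 : ℕ) : ℝ)) * t + 0) :=
    funext fun t => by rw [hR4]
  rw [e]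
  refine ⟨hm.1, ?_⟩
  have h2 := (abs_le.mp hm.2).2
  have hd : ∑ q ∈ S2 ×ˢ S2, (if q.1.1 * q.1.2 = q.2.1 * q.2.2 then a q.1.1 * a q.1.2 * (a q.2.1 * a q.2.2) * Real.cos 0 else 0) ≤
      D * Vr r M ^ 2 := by
    rw [Real.cos_zero]
    simp only [mul_one]
    refine (mult_bd S2 (fun i => a i.1 * a i.2) (fun i => i.1 * i.2) D (fun i hi =>
      hD i (hSr _ (Finset.mem_product.mp hi).1) (hSr _ (Finset.mem_product.mp hi).2))).trans ?_
    refine mul_le_mul_of_nonneg_left (le_of_eq ?_) (by positivity)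
    have hV : Vr r M = ∑ n ∈ S, a n ^ 2 := by
      rw [← hsub (fun n => a n ^ 2) (fun n hn => by simp [hn])]
      unfold Vr
      refine Finset.sum_congr rfl fun n hn => ?_
      have hn1 : (0:ℝ) < n := by exact_mod_cast (Finset.mem_Icc.mp hn).1
      simp only [ha]
      rw [div_pow, Real.sq_sqrt hn1.le]
    rw [hV, sq, Finset.sum_mul_sum, hS2, Finset.sum_product]
    exact Finset.sum_congr rfl fun n _ => Finset.sum_congr rfl fun m _ => by ring
  have hs : ∑ q ∈ S2 ×ˢ S2, |a q.1.1 * a q.1.2 * (a q.2.1 * a q.2.2)| = Ar r M ^ 4 := by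
    have h3 : Ar r M = ∑ n ∈ S, |a n| := hsub (fun n => |a n|) (fun n hn => by rw [hn, abs_zero])
    have h5 : ∑ i ∈ S2, |a i.1 * a i.2| = (∑ n ∈ S, |a n|) ^ 2 := by
      rw [sq, Finset.sum_mul_sum, hS2, Finset.sum_product]
      exact Finset.sum_congr rfl fun n _ => Finset.sum_congr rfl fun m _ => abs_mul _ _
    have h6 : ∑ q ∈ S2 ×ˢ S2, |a q.1.1 * a q.1.2 * (a q.2.1 * a q.2.2)| = (∑ i ∈ S2, |a i.1 * a i.2|) ^ 2 := by
      rw [sq, Finset.sum_mul_sum, Finset.sum_product]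
      exact Finset.sum_congr rfl fun n _ => Finset.sum_congr rfl fun m _ => abs_mul _ _
    rw [h6, h5, ← pow_mul, h3]
  rw [hs] at h2
  linarith

/-- multiplicity of a product of two numbers of a set of squarefree numbers. -/
lemma mult_gen {r : ℕ → ℝ} {K : ℕ} (hr : ∀ n, r n ≠ 0 → Squarefree n ∧ n.primeFactors.card ≤ K) (S : Finset ℕ)
    (hS : ∀ n ∈ S, r n ≠ 0) (i : ℕ × ℕ) (hi1 : r i.1 ≠ 0) (hi2 : r i.2 ≠ 0) :
    ((S ×ˢ S).filter (fun j => i.1 * i.2 = j.1 * j.2)).card ≤ 4 ^ K := by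
  obtain ⟨a1, a3⟩ := hr _ hi1
  obtain ⟨b1, b3⟩ := hr _ hi2
  have h1 : ((S ×ˢ S).filter (fun j => i.1 * i.2 = j.1 * j.2)).card ≤ ((i.1 * i.2).primeFactors.powerset).card := by
    refine Finset.card_le_card_of_injOn (fun j => j.1.primeFactors) ?_ ?_
    · intro j hj
      obtain ⟨hj1, hj2⟩ := Finset.mem_filter.mp (Finset.mem_coe.mp hj)
      rw [Finset.mem_coe, Finset.mem_powerset]
      rw [hj2]
      apply Nat.primeFactors_mono (Dvd.intro _ rfl)
      obtain ⟨hk1, hk2⟩ := Finset.mem_product.mp hj1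
      exact mul_ne_zero (hr _ (hS _ hk1)).1.ne_zero (hr _ (hS _ hk2)).1.ne_zero
    · intro j hj k hk hjk
      obtain ⟨hj1, hj2⟩ := Finset.mem_filter.mp (Finset.mem_coe.mp hj)
      obtain ⟨hk1, hk2⟩ := Finset.mem_filter.mp (Finset.mem_coe.mp hk)
      have s1 := (hr _ (hS _ (Finset.mem_product.mp hj1).1)).1
      have s2 := (hr _ (hS _ (Finset.mem_product.mp hk1).1)).1
      simp only at hjk
      have e1 : j.1 = k.1 := by
        rw [← Nat.prod_primeFactors_of_squarefree s1, ← Nat.prod_primeFactors_of_squarefree s2, hjk]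
      have e2 : j.2 = k.2 := by
        have : k.1 * j.2 = k.1 * k.2 := by rw [← e1, ← hj2, hk2, e1]
        exact Nat.eq_of_mul_eq_mul_left (Nat.pos_of_ne_zero s2.ne_zero) this
      exact Prod.ext e1 e2
  refine h1.trans ?_
  rw [Finset.card_powerset, Nat.primeFactors_mul a1.ne_zero b1.ne_zero]
  calc 2 ^ (i.1.primeFactors ∪ i.2.primeFactors).card ≤ 2 ^ (K + K) := by
        apply Nat.pow_le_pow_right (by norm_num)
        exact (Finset.card_union_le _ _).trans (add_le_add a3 b3)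
    _ = 4 ^ K := by rw [pow_add, ← mul_pow]; norm_num

/-- growth. -/
lemma growth_pow {κ : ℝ} (hκ : 0 < κ) (k : ℕ) : ∃ T0 : ℝ, 1 ≤ T0 ∧ ∀ T : ℝ, T0 ≤ T →
    T ^ k * Real.exp (-(T ^ κ)) ≤ 1 / T := by
  obtain ⟨j, hj⟩ := exists_nat_gt ((k + 1) / κ)
  have h := (Real.tendsto_pow_mul_exp_neg_atTop_nhds_zero j).comp (tendsto_rpow_atTop hκ)
  have h2 := h.eventually (eventually_le_nhds (show (0:ℝ) < 1 by norm_num))
  obtain ⟨T0, hT0⟩ := (h2.and (eventually_ge_atTop 1)).exists_forall_of_atTop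
  refine ⟨max T0 1, le_max_right _ _, fun T hT => ?_⟩
  obtain ⟨h3, h4⟩ := hT0 T (le_trans (le_max_left _ _) hT)
  have hT1 : (0:ℝ) < T := by linarith
  have h5 : T ^ (k + 1) ≤ (T ^ κ) ^ j := by
    rw [← Real.rpow_natCast, ← Real.rpow_natCast, ← Real.rpow_mul hT1.le]
    apply Real.rpow_le_rpow_of_exponent_le h4
    push_cast
    have := (div_lt_iff₀ hκ).mp hj
    linarith
  simp only [Function.comp] at h3
  rw [le_div_iff₀ hT1]
  calc T ^ k * Real.exp (-(T ^ κ)) * T = T ^ (k + 1) * Real.exp (-(T ^ κ)) := by ring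
    _ ≤ (T ^ κ) ^ j * Real.exp (-(T ^ κ)) := by gcongr
    _ ≤ 1 := h3

end Pool.Agent.Helper60.UV
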